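import Pool.Agent.H57.NL.Loc

/-!
The maximal pair argument.
-/

set_option autoImplicit false

open scoped ContDiff Topology RealInnerProductSpace
open Filter

namespace Pool.Agent.H57.NL

variable {m n : ℕ} {N : Set (E m)} {Γ : AddSubgroup (E m)} {S : Set (E m × E m)}
  {f : E m × E m → ℝ}

/-- The Liouville form `p dq` at the point `z = (q, p)`. -/
noncomputable def liou (z : E m × E m) : (E m × E m) →L[ℝ] ℝ :=
  (innerSL ℝ z.2).comp (ContinuousLinearMap.fst ℝ (E m) (E m))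

theorem liou_apply (z v : E m × E m) : liou z v = ⟪z.2, v.1⟫ := rfl

theorem ExactLag.exact (hL : ExactLag n N Γ S f) (z : E m × E m) (hz : z ∈ S) :
    HasFDerivWithinAt f (liou z) S z := by
  rw [hasFDerivWithinAt_iff_isLittleO]
  exact hL.prim z hz

/-- A local section along a curve in the base. -/
theorem section_curve {z0 : E m × E m} {σ : E m → E m × E m}
    (h1 : ∀ᶠ q in 𝓝 z0.1, ContDiffAt ℝ ∞ σ q)
    (h2 : ∀ᶠ q in 𝓝 z0.1, q ∈ N → σ q ∈ S ∧ (σ q).1 = q) {γ : ℝ → E m} {w : E m}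
    (hγ0 : γ 0 = z0.1) (hγN : ∀ᶠ s in 𝓝 (0 : ℝ), γ s ∈ N) (hγd : HasDerivAt γ w 0) :
    (∀ᶠ s in 𝓝 (0 : ℝ), σ (γ s) ∈ S ∧ (σ (γ s)).1 = γ s) ∧
      HasDerivAt (σ ∘ γ) (fderiv ℝ σ z0.1 w) 0 ∧ (fderiv ℝ σ z0.1 w).1 = w := by
  have hT : Tendsto γ (𝓝 0) (𝓝 z0.1) := by
    rw [← hγ0]
    exact hγd.continuousAt
  have e1 : ∀ᶠ s in 𝓝 (0 : ℝ), σ (γ s) ∈ S ∧ (σ (γ s)).1 = γ s := by
    filter_upwards [hT.eventually h2, hγN] with s k1 k2 using k1 k2
  have hσd : HasFDerivAt σ (fderiv ℝ σ z0.1) (γ 0) := by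
    rw [hγ0]
    exact (h1.self_of_nhds.differentiableAt (by simp)).hasFDerivAt
  have e2 : HasDerivAt (σ ∘ γ) (fderiv ℝ σ z0.1 w) 0 := hσd.comp_hasDerivAt (0 : ℝ) hγd
  refine ⟨e1, e2, ?_⟩
  have e3 : HasDerivAt (fun s => (σ (γ s)).1) (fderiv ℝ σ z0.1 w).1 0 := by
    have := (ContinuousLinearMap.fst ℝ (E m) (E m)).hasFDerivAt.comp_hasDerivAt (0 : ℝ) e2
    exact this
  have e4 : HasDerivAt (fun s => (σ (γ s)).1) w 0 := by
    refine hγd.congr_of_eventuallyEq ?_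
    filter_upwards [e1] with s hs using hs.2
  exact e3.unique e4

theorem section_tan {z0 : E m × E m} {σ : E m → E m × E m} (h0 : σ z0.1 = z0)
    (h1 : ∀ᶠ q in 𝓝 z0.1, ContDiffAt ℝ ∞ σ q)
    (h2 : ∀ᶠ q in 𝓝 z0.1, q ∈ N → σ q ∈ S ∧ (σ q).1 = q) {w : E m}
    (hw : w ∈ Tan N z0.1) : fderiv ℝ σ z0.1 w ∈ Tan S z0 ∧ (fderiv ℝ σ z0.1 w).1 = w := by
  obtain ⟨γ, hγ0, hγN, hγd⟩ := hw
  obtain ⟨k1, k2, k3⟩ := section_curve h1 h2 hγ0 hγN hγd
  refine ⟨⟨σ ∘ γ, ?_, ?_, k2⟩, k3⟩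
  · rw [Function.comp, hγ0, h0]
  · filter_upwards [k1] with s hs using hs.1

theorem eq_of_max_pair (hM : ClosedMfd n N Γ) (hL : ExactLag n N Γ S f) {x y : E m × E m}
    (hx : x ∈ S) (hy : y ∈ S) (hxy : x.1 = y.1) (hxn : ¬ Caustic S x) (hyn : ¬ Caustic S y)
    (hmax : ∀ x' ∈ S, ∀ y' ∈ S, x'.1 = y'.1 → f x' - f y' ≤ f x - f y) : x = y := by
  obtain ⟨σ, s0, s1, s2, -⟩ := local_section hM.sub hL.sub hL.subTN hx hxn
  obtain ⟨τ, t0, t1, t2, -⟩ := local_section hM.sub hL.sub hL.subTN hy hyn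
  have hxN := hL.subTN hx
  have hyN := hL.subTN hy
  have key : ∀ w ∈ Tan N x.1, ⟪x.2, w⟫ - ⟪y.2, w⟫ = 0 := by
    rintro w ⟨γ, hγ0, hγN, hγd⟩
    obtain ⟨a1, a2, a3⟩ := section_curve s1 s2 hγ0 hγN hγd
    obtain ⟨b1, b2, b3⟩ := section_curve t1 t2 (hγ0.trans hxy) hγN hγd
    have c1 : HasDerivAt (f ∘ (σ ∘ γ)) ⟪x.2, w⟫ 0 := by
      have hx0 : (σ ∘ γ) 0 = x := by rw [Function.comp, hγ0, s0]
      have := hasDerivAt_along (S := S) (γ := σ ∘ γ) (a1.mono fun s hs => hs.1) a2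
        (g := f) (D := liou x) (by rw [hx0]; exact hL.exact x hx)
      rwa [liou_apply, a3] at this
    have c2 : HasDerivAt (f ∘ (τ ∘ γ)) ⟪y.2, w⟫ 0 := by
      have hy0 : (τ ∘ γ) 0 = y := by rw [Function.comp, hγ0, hxy, t0]
      have := hasDerivAt_along (S := S) (γ := τ ∘ γ) (b1.mono fun s hs => hs.1) b2
        (g := f) (D := liou y) (by rw [hy0]; exact hL.exact y hy)
      rwa [liou_apply, b3] at this
    have c3 := c1.sub c2
    have c4 : IsLocalMax (fun s => (f ∘ (σ ∘ γ)) s - (f ∘ (τ ∘ γ)) s) 0 := by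
      filter_upwards [a1, b1] with s h1 h2
      have h3 := hmax _ h1.1 _ h2.1 (h1.2.trans h2.2.symm)
      have h4 : σ (γ 0) = x := by rw [hγ0, s0]
      have h5 : τ (γ 0) = y := by rw [hγ0, hxy, t0]
      change f (σ (γ s)) - f (τ (γ s)) ≤ f (σ (γ 0)) - f (τ (γ 0))
      rw [h4, h5]
      exact h3
    exact c4.hasDerivAt_eq_zero c3
  have hy2 : y.2 ∈ Tan N x.1 := by
    rw [hxy]
    exact hyN.2
  have h := key (x.2 - y.2) (hM.sub.tan_sub hxN.1 hxN.2 hy2)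
  rw [← inner_sub_left, inner_self_eq_zero, sub_eq_zero] at h
  exact Prod.ext hxy h

theorem ExactLag.compact_part (hL : ExactLag n N Γ S f) (R : ℝ) :
    IsCompact {z | z ∈ S ∧ ‖z.1‖ ≤ R} := by
  obtain ⟨R', hR'⟩ := hL.bdd
  apply Metric.isCompact_of_isClosed_isBounded
  · exact hL.closed.inter (isClosed_le (continuous_fst.norm) continuous_const)
  · apply (Metric.isBounded_closedBall (x := (0 : E m × E m)) (r := max R R')).subset
    rintro z ⟨h1, h2⟩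
    rw [mem_closedBall_zero_iff, Prod.norm_def]
    exact max_le_max h2 (hR' z h1)

theorem ExactLag.continuousOn (hL : ExactLag n N Γ S f) : ContinuousOn f S :=
  fun z hz => (hL.exact z hz).continuousWithinAt

theorem exists_max_pair (hM : ClosedMfd n N Γ) (hL : ExactLag n N Γ S f) :
    ∃ x ∈ S, ∃ y ∈ S, x.1 = y.1 ∧
      ∀ x' ∈ S, ∀ y' ∈ S, x'.1 = y'.1 → f x' - f y' ≤ f x - f y := by
  obtain ⟨R, hR⟩ := hM.cocpt
  set K := {z | z ∈ S ∧ ‖z.1‖ ≤ R} with hK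
  have hKc : IsCompact K := hL.compact_part R
  have hP : IsCompact ((K ×ˢ K) ∩ {q : (E m × E m) × (E m × E m) | q.1.1 = q.2.1}) :=
    (hKc.prod hKc).inter_right (isClosed_eq (by fun_prop) (by fun_prop))
  have hne : ((K ×ˢ K) ∩ {q : (E m × E m) × (E m × E m) | q.1.1 = q.2.1}).Nonempty := by
    obtain ⟨z, hz⟩ := hL.ne
    obtain ⟨g, hg, hgR⟩ := hR z.1 (hL.subTN hz).1
    refine ⟨(tr g z, tr g z), ⟨⟨hL.inv g hg z hz, hgR⟩, ⟨hL.inv g hg z hz, hgR⟩⟩, rfl⟩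
  have hcont : ContinuousOn (fun q : (E m × E m) × (E m × E m) => f q.1 - f q.2)
      ((K ×ˢ K) ∩ {q : (E m × E m) × (E m × E m) | q.1.1 = q.2.1}) := by
    apply ContinuousOn.sub
    · exact hL.continuousOn.comp continuousOn_fst (fun q hq => hq.1.1.1)
    · exact hL.continuousOn.comp continuousOn_snd (fun q hq => hq.1.2.1)
  obtain ⟨⟨x, y⟩, ⟨⟨hx, hy⟩, hxy⟩, hmax⟩ := hP.exists_isMaxOn hne hcont
  refine ⟨x, hx.1, y, hy.1, hxy, ?_⟩
  intro x' hx' y' hy' hxy'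
  obtain ⟨g, hg, hgR⟩ := hR x'.1 (hL.subTN hx').1
  have h1 : (tr g x', tr g y') ∈
      ((K ×ˢ K) ∩ {q : (E m × E m) × (E m × E m) | q.1.1 = q.2.1}) := by
    refine ⟨⟨⟨hL.inv g hg x' hx', hgR⟩, ⟨hL.inv g hg y' hy', ?_⟩⟩, ?_⟩
    · change ‖y'.1 + g‖ ≤ R
      rw [← hxy']
      exact hgR
    · change x'.1 + g = y'.1 + g
      rw [hxy']
  have h2 := hmax h1
  have h3 : f (tr g x') - f (tr g y') ≤ f x - f y := h2
  rwa [hL.finv g hg x' hx', hL.finv g hg y' hy'] at h3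

/-- If no caustic point is extremal in its fibre, the projection is injective on `S` and there are no
caustic points. -/
theorem injective_of_no_extremal (hM : ClosedMfd n N Γ) (hL : ExactLag n N Γ S f)
    (hno : ∀ z ∈ S, Caustic S z → ¬ FibreExtremal S f z) :
    (∀ x ∈ S, ∀ y ∈ S, x.1 = y.1 → x = y) ∧ ∀ z ∈ S, ¬ Caustic S z := by
  obtain ⟨x, hx, y, hy, hxy, hmax⟩ := exists_max_pair hM hL
  have main : ∀ x ∈ S, ∀ y ∈ S, x.1 = y.1 →
      (∀ x' ∈ S, ∀ y' ∈ S, x'.1 = y'.1 → f x' - f y' ≤ f x - f y) → x = y := by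
    intro x hx y hy hxy hmax
    have h1 : ¬ Caustic S x := by
      intro hc
      apply hno x hx hc
      left
      intro z hz hzx
      have := hmax z hz y hy (hzx.trans hxy)
      linarith
    have h2 : ¬ Caustic S y := by
      intro hc
      apply hno y hy hc
      right
      intro z hz hzy
      have := hmax x hx z hz (hxy.trans hzy.symm)
      linarith
    exact eq_of_max_pair hM hL hx hy hxy h1 h2 hmax
  have h0 : x = y := main x hx y hy hxy hmax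
  have hinj : ∀ x ∈ S, ∀ y ∈ S, x.1 = y.1 → x = y := by
    intro a ha b hb hab
    apply main a ha b hb hab
    intro a' ha' b' hb' hab'
    have h1 := hmax a' ha' b' hb' hab'
    have h2 := hmax b hb a ha hab.symm
    rw [h0] at h1 h2
    linarith
  refine ⟨hinj, ?_⟩
  intro z hz hc
  apply hno z hz hc
  left
  intro y hy hyz
  rw [hinj y hy z hz hyz]

end Pool.Agent.H57.NL
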