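import Pool.Agent.H57.NL.Defs

/-!
Tangent vectors of embedded submanifolds in slice charts.
-/

set_option autoImplicit false

open scoped ContDiff Topology RealInnerProductSpace
open Filter

namespace Pool.Agent.H57.NL

section General

variable {V V' : Type*} [NormedAddCommGroup V] [NormedSpace ℝ V] [NormedAddCommGroup V']
  [NormedSpace ℝ V']

theorem Tan.map {S : Set V} {T : Set V'} {x v : V} (hv : v ∈ Tan S x) {g : V → V'} {D : V →L[ℝ] V'}
    (hg : HasFDerivAt g D x) (hST : ∀ᶠ y in 𝓝 x, y ∈ S → g y ∈ T) : D v ∈ Tan T (g x) := by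
  obtain ⟨γ, h0, hS, hd⟩ := hv
  subst h0
  refine ⟨g ∘ γ, rfl, ?_, ?_⟩
  · have hc : Tendsto γ (𝓝 0) (𝓝 (γ 0)) := hd.continuousAt
    filter_upwards [hc.eventually hST, hS] with s h1 h2
    exact h1 h2
  · exact hg.comp_hasDerivAt (0 : ℝ) hd

theorem Tan.mapWithin {S : Set V} {T : Set V'} {x v : V} (hv : v ∈ Tan S x) {g : V → V'}
    {D : V →L[ℝ] V'} (hg : HasFDerivWithinAt g D S x) (hx : x ∈ S)
    (hST : ∀ y ∈ S, g y ∈ T) : D v ∈ Tan T (g x) := by
  obtain ⟨γ, h0, hS, hd⟩ := hv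
  subst h0
  refine ⟨g ∘ γ, rfl, ?_, ?_⟩
  · filter_upwards [hS] with s h2
    exact hST _ h2
  · have h1 : HasDerivWithinAt γ v {s | γ s ∈ S} 0 := hd.hasDerivWithinAt
    have h2 : HasDerivWithinAt (g ∘ γ) (D v) {s | γ s ∈ S} 0 :=
      hg.comp_hasDerivWithinAt (0 : ℝ) h1 (fun s hs => hs)
    exact h2.hasDerivAt hS

/-- Derivative of a function along a curve in `S`. -/
theorem hasDerivAt_along {S : Set V} {γ : ℝ → V} {v : V} (hS : ∀ᶠ s in 𝓝 (0 : ℝ), γ s ∈ S)
    (hd : HasDerivAt γ v 0) {g : V → V'} {D : V →L[ℝ] V'}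
    (hg : HasFDerivWithinAt g D S (γ 0)) : HasDerivAt (g ∘ γ) (D v) 0 := by
  have h1 : HasDerivWithinAt γ v {s | γ s ∈ S} 0 := hd.hasDerivWithinAt
  have h2 : HasDerivWithinAt (g ∘ γ) (D v) {s | γ s ∈ S} 0 :=
    hg.comp_hasDerivWithinAt (0 : ℝ) h1 (fun s hs => hs)
  exact h2.hasDerivAt hS

theorem Tan.smul {S : Set V} {x v : V} (hv : v ∈ Tan S x) (c : ℝ) : c • v ∈ Tan S x := by
  obtain ⟨γ, h0, hS, hd⟩ := hv
  have hlin : HasDerivAt (fun s : ℝ => c * s) c 0 := by
    simpa using (hasDerivAt_id (0 : ℝ)).const_mul c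
  refine ⟨fun s => γ (c * s), by simpa using h0, ?_, ?_⟩
  · have hc : Tendsto (fun s : ℝ => c * s) (𝓝 0) (𝓝 0) := by
      have := hlin.continuousAt.tendsto
      simpa using this
    exact hc.eventually hS
  · have hd' : HasDerivAt γ v ((fun s : ℝ => c * s) 0) := by simpa using hd
    exact hd'.scomp (0 : ℝ) hlin

/-- Velocities at nearby times of a curve in `S`. -/
theorem tan_of_curve {S : Set V} {γ γ' : ℝ → V}
    (h : ∀ᶠ s in 𝓝 (0 : ℝ), γ s ∈ S ∧ HasDerivAt γ (γ' s) s) :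
    ∀ᶠ s in 𝓝 (0 : ℝ), γ' s ∈ Tan S (γ s) := by
  filter_upwards [eventually_eventually_nhds.2 h, h] with s hs hs0
  have hsh : HasDerivAt (fun t : ℝ => s + t) 1 0 := by
    simpa using (hasDerivAt_id (0 : ℝ)).const_add s
  refine ⟨fun t => γ (s + t), by simp, ?_, ?_⟩
  · have hc : Tendsto (fun t : ℝ => s + t) (𝓝 0) (𝓝 s) := by
      have := hsh.continuousAt.tendsto
      simpa using this
    exact (hc.eventually hs).mono (fun t ht => ht.1)
  · have hd' : HasDerivAt γ (γ' s) ((fun t : ℝ => s + t) 0) := by simpa using hs0.2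
    have := hd'.scomp (0 : ℝ) hsh
    rw [one_smul] at this
    exact this

/-- A slice chart. -/
structure Slice (n : ℕ) (S : Set V) (e : OpenPartialHomeomorph V V) (A : Submodule ℝ V) :
    Prop where
  s1 : ContDiffOn ℝ ∞ e e.source
  s2 : ContDiffOn ℝ ∞ e.symm e.target
  fr : Module.finrank ℝ A = n
  iff : ∀ y ∈ e.source, (y ∈ S ↔ e y ∈ A)

theorem IsSubmfd.slice {n : ℕ} {S : Set V} (h : IsSubmfd n S) {x : V} (hx : x ∈ S) :
    ∃ (e : OpenPartialHomeomorph V V) (A : Submodule ℝ V), x ∈ e.source ∧ Slice n S e A := by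
  obtain ⟨e, A, h1, h2, h3, h4, h5⟩ := h x hx
  exact ⟨e, A, h1, h2, h3, h4, h5⟩

namespace Slice

variable {n : ℕ} {S : Set V} {e : OpenPartialHomeomorph V V} {A : Submodule ℝ V}

theorem cd (h : Slice n S e A) {x : V} (hx : x ∈ e.source) : ContDiffAt ℝ ∞ e x :=
  h.s1.contDiffAt (e.open_source.mem_nhds hx)

theorem cd' (h : Slice n S e A) {y : V} (hy : y ∈ e.target) : ContDiffAt ℝ ∞ e.symm y :=
  h.s2.contDiffAt (e.open_target.mem_nhds hy)

theorem hd (h : Slice n S e A) {x : V} (hx : x ∈ e.source) :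
    HasFDerivAt e (fderiv ℝ e x) x :=
  ((h.cd hx).differentiableAt (by simp)).hasFDerivAt

theorem hd' (h : Slice n S e A) {y : V} (hy : y ∈ e.target) :
    HasFDerivAt e.symm (fderiv ℝ e.symm y) y :=
  ((h.cd' hy).differentiableAt (by simp)).hasFDerivAt

theorem left (h : Slice n S e A) {x : V} (hx : x ∈ e.source) (v : V) :
    fderiv ℝ e.symm (e x) (fderiv ℝ e x v) = v := by
  have h1 : HasFDerivAt (e.symm ∘ e) ((fderiv ℝ e.symm (e x)).comp (fderiv ℝ e x)) x :=
    (h.hd' (e.map_source hx)).comp x (h.hd hx)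
  have h2 : HasFDerivAt (e.symm ∘ e) (ContinuousLinearMap.id ℝ V) x := by
    refine (hasFDerivAt_id x).congr_of_eventuallyEq ?_
    filter_upwards [e.open_source.mem_nhds hx] with y hy
    exact e.left_inv hy
  have h3 := h1.unique h2
  have h4 := congrArg (fun L : V →L[ℝ] V => L v) h3
  simpa using h4

theorem right (h : Slice n S e A) {x : V} (hx : x ∈ e.source) (v : V) :
    fderiv ℝ e x (fderiv ℝ e.symm (e x) v) = v := by
  have h0 : HasFDerivAt e (fderiv ℝ e x) (e.symm (e x)) := by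
    rw [e.left_inv hx]
    exact h.hd hx
  have h1 : HasFDerivAt (e ∘ e.symm) ((fderiv ℝ e x).comp (fderiv ℝ e.symm (e x))) (e x) :=
    h0.comp (e x) (h.hd' (e.map_source hx))
  have h2 : HasFDerivAt (e ∘ e.symm) (ContinuousLinearMap.id ℝ V) (e x) := by
    refine (hasFDerivAt_id (e x)).congr_of_eventuallyEq ?_
    filter_upwards [e.open_target.mem_nhds (e.map_source hx)] with y hy
    exact e.right_inv hy
  have h3 := h1.unique h2
  have h4 := congrArg (fun L : V →L[ℝ] V => L v) h3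
  simpa using h4

variable [FiniteDimensional ℝ V]

/-- Tangent vectors in a slice chart. -/
theorem mem_tan (h : Slice n S e A) {x : V} (hx : x ∈ e.source) (hxS : x ∈ S) (v : V) :
    v ∈ Tan S x ↔ fderiv ℝ e x v ∈ A := by
  have hAc : IsClosed (A : Set V) := A.closed_of_finiteDimensional
  constructor
  · rintro ⟨γ, h0, hS, hdγ⟩
    subst h0
    have h1 : HasDerivAt (e ∘ γ) (fderiv ℝ e (γ 0) v) 0 := (h.hd hx).comp_hasDerivAt (0 : ℝ) hdγ
    have h2 := h1.tendsto_slope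
    refine hAc.mem_of_tendsto h2 ?_
    have hsrc : ∀ᶠ s in 𝓝 (0 : ℝ), γ s ∈ e.source :=
      hdγ.continuousAt.tendsto.eventually (e.open_source.mem_nhds hx)
    have hev : ∀ᶠ s in 𝓝 (0 : ℝ), (e (γ s)) ∈ A := by
      filter_upwards [hsrc, hS] with s hs1 hs2
      exact (h.iff _ hs1).1 hs2
    filter_upwards [hev.filter_mono nhdsWithin_le_nhds] with s hs
    rw [slope_def_module]
    exact A.smul_mem _ (A.sub_mem hs ((h.iff _ hx).1 hxS))
  · intro hv
    refine ⟨fun s => e.symm (e x + s • fderiv ℝ e x v), by simp [e.left_inv hx], ?_, ?_⟩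
    · have hline : Tendsto (fun s : ℝ => e x + s • fderiv ℝ e x v) (𝓝 0) (𝓝 (e x)) := by
        have : Continuous (fun s : ℝ => e x + s • fderiv ℝ e x v) := by fun_prop
        simpa using this.tendsto 0
      filter_upwards [hline.eventually (e.open_target.mem_nhds (e.map_source hx))] with s hs
      rw [h.iff _ (e.map_target hs), e.right_inv hs]
      exact A.add_mem ((h.iff _ hx).1 hxS) (A.smul_mem _ hv)
    · have hl : HasDerivAt (fun s : ℝ => e x + s • fderiv ℝ e x v) (fderiv ℝ e x v) 0 := by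
        have := ((hasDerivAt_id (0 : ℝ)).smul_const (fderiv ℝ e x v)).const_add (e x)
        simpa using this
      have h1 : HasFDerivAt e.symm (fderiv ℝ e.symm (e x))
          ((fun s : ℝ => e x + s • fderiv ℝ e x v) 0) := by
        simpa using h.hd' (e.map_source hx)
      have h2 := h1.comp_hasDerivAt (0 : ℝ) hl
      rw [h.left hx] at h2
      exact h2

end Slice

variable [FiniteDimensional ℝ V]

theorem IsSubmfd.tan_add {n : ℕ} {S : Set V} (h : IsSubmfd n S) {x : V} (hx : x ∈ S) {v w : V}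
    (hv : v ∈ Tan S x) (hw : w ∈ Tan S x) : v + w ∈ Tan S x := by
  obtain ⟨e, A, hxe, hs⟩ := h.slice hx
  rw [hs.mem_tan hxe hx] at hv hw ⊢
  rw [map_add]
  exact A.add_mem hv hw

theorem IsSubmfd.tan_sub {n : ℕ} {S : Set V} (h : IsSubmfd n S) {x : V} (hx : x ∈ S) {v w : V}
    (hv : v ∈ Tan S x) (hw : w ∈ Tan S x) : v - w ∈ Tan S x := by
  obtain ⟨e, A, hxe, hs⟩ := h.slice hx
  rw [hs.mem_tan hxe hx] at hv hw ⊢
  rw [map_sub]
  exact A.sub_mem hv hw

theorem IsSubmfd.tan_zero {n : ℕ} {S : Set V} (h : IsSubmfd n S) {x : V} (hx : x ∈ S) :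
    (0 : V) ∈ Tan S x := by
  obtain ⟨e, A, hxe, hs⟩ := h.slice hx
  rw [hs.mem_tan hxe hx, map_zero]
  exact A.zero_mem

/-- The set of tangent vectors is closed. -/
theorem IsSubmfd.isClosed_tan {n : ℕ} {S : Set V} (h : IsSubmfd n S) (hc : IsClosed S) :
    IsClosed {zv : V × V | zv.1 ∈ S ∧ zv.2 ∈ Tan S zv.1} := by
  rw [← isSeqClosed_iff_isClosed]
  intro u z hu hz
  have h1 : Tendsto (fun k => (u k).1) atTop (𝓝 z.1) := (continuous_fst.tendsto z).comp hz
  have h2 : Tendsto (fun k => (u k).2) atTop (𝓝 z.2) := (continuous_snd.tendsto z).comp hz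
  have hzS : z.1 ∈ S := hc.mem_of_tendsto h1 (Eventually.of_forall fun k => (hu k).1)
  refine ⟨hzS, ?_⟩
  obtain ⟨e, A, hxe, hs⟩ := h.slice hzS
  rw [hs.mem_tan hxe hzS]
  have hAc : IsClosed (A : Set V) := A.closed_of_finiteDimensional
  have hcont : ContinuousAt (fun y => fderiv ℝ e y) z.1 := by
    have := (hs.cd hxe).fderiv_right (m := 0) (by simp)
    exact this.continuousAt
  have h3 : Tendsto (fun k => fderiv ℝ e (u k).1 (u k).2) atTop (𝓝 (fderiv ℝ e z.1 z.2)) := by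
    have h4 : Tendsto (fun k => fderiv ℝ e (u k).1) atTop (𝓝 (fderiv ℝ e z.1)) :=
      hcont.tendsto.comp h1
    have h5 : Tendsto (fun k => (fderiv ℝ e (u k).1, (u k).2)) atTop
        (𝓝 (fderiv ℝ e z.1, z.2)) := h4.prodMk_nhds h2
    have h6 : Continuous (fun q : (V →L[ℝ] V) × V => q.1 q.2) :=
      isBoundedBilinearMap_apply.continuous
    exact (h6.tendsto (fderiv ℝ e z.1, z.2)).comp h5
  refine hAc.mem_of_tendsto h3 ?_
  filter_upwards [h1.eventually (e.open_source.mem_nhds hxe)] with k hk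
  exact (hs.mem_tan hk (hu k).1 _).1 (hu k).2

end General

end Pool.Agent.H57.NL
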