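import Pool.Agent.H57.NL.Slice

/-!
A local section of the projection `S → N` near a point that is not a caustic point.
-/

set_option autoImplicit false

open scoped ContDiff Topology RealInnerProductSpace
open Filter

namespace Pool.Agent.H57.NL

/-- Smooth inverse near a point with invertible derivative. -/
theorem smooth_inverse {X Y : Type*} [NormedAddCommGroup X] [NormedSpace ℝ X]
    [FiniteDimensional ℝ X] [NormedAddCommGroup Y] [NormedSpace ℝ Y] [FiniteDimensional ℝ Y]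
    (hfr : Module.finrank ℝ X = Module.finrank ℝ Y) {c : X → Y} {a0 : X}
    (hc : ∀ᶠ a in 𝓝 a0, ContDiffAt ℝ ∞ c a) (hinj : Function.Injective (fderiv ℝ c a0)) :
    ∃ Φ : OpenPartialHomeomorph X Y, (Φ : X → Y) = c ∧ a0 ∈ Φ.source ∧
      ∀ᶠ b in 𝓝 (c a0), ContDiffAt ℝ ∞ Φ.symm b := by
  have : CompleteSpace X := FiniteDimensional.complete ℝ X
  have : CompleteSpace Y := FiniteDimensional.complete ℝ Y
  have hc0 : ContDiffAt ℝ ∞ c a0 := hc.self_of_nhds
  have hex : ∀ L : X →L[ℝ] Y, Function.Injective L → ∃ L' : X ≃L[ℝ] Y, (L' : X →L[ℝ] Y) = L := by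
    intro L hL
    let L1 : X ≃ₗ[ℝ] Y := LinearMap.linearEquivOfInjective (L : X →ₗ[ℝ] Y) hL hfr
    refine ⟨L1.toContinuousLinearEquiv, ?_⟩
    ext x
    rfl
  obtain ⟨L0, hL0⟩ := hex _ hinj
  have hst : HasStrictFDerivAt c (L0 : X →L[ℝ] Y) a0 := by
    rw [hL0]
    exact hc0.hasStrictFDerivAt (by simp)
  refine ⟨hst.toOpenPartialHomeomorph c, rfl, hst.mem_toOpenPartialHomeomorph_source, ?_⟩
  set Φ := hst.toOpenPartialHomeomorph c with hΦ
  have hcoe : (Φ : X → Y) = c := rfl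
  have ha0 : a0 ∈ Φ.source := hst.mem_toOpenPartialHomeomorph_source
  have hb0 : c a0 ∈ Φ.target := Φ.map_source ha0
  have hinv : Φ.symm (c a0) = a0 := Φ.left_inv ha0
  -- nearby derivatives are invertible
  have hcont : ContinuousAt (fun a => fderiv ℝ c a) a0 :=
    (hc0.fderiv_right (m := 0) (by simp)).continuousAt
  have hev : ∀ᶠ a in 𝓝 a0, ∃ L' : X ≃L[ℝ] Y, (L' : X →L[ℝ] Y) = fderiv ℝ c a := by
    have h1 : Set.range ((↑) : (X ≃L[ℝ] Y) → (X →L[ℝ] Y)) ∈ 𝓝 (fderiv ℝ c a0) := by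
      rw [← hL0]
      exact ContinuousLinearEquiv.nhds L0
    have h2 := hcont.tendsto h1
    filter_upwards [h2] with a ha
    obtain ⟨L', hL'⟩ := ha
    exact ⟨L', hL'⟩
  have hsymm : Tendsto Φ.symm (𝓝 (c a0)) (𝓝 a0) := by
    have := (Φ.continuousAt_symm hb0).tendsto
    rwa [hinv] at this
  filter_upwards [hsymm.eventually hev, hsymm.eventually hc, Φ.open_target.mem_nhds hb0] with b h1 h2 h3
  obtain ⟨L', hL'⟩ := h1
  refine Φ.contDiffAt_symm (f₀' := L') h3 ?_ h2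
  rw [hL']
  exact (h2.differentiableAt (by simp)).hasFDerivAt

variable {m n : ℕ}

theorem local_section {N : Set (E m)} {S : Set (E m × E m)} (hN : IsSubmfd n N)
    (hS : IsSubmfd n S) (hSN : S ⊆ TN N) {z0 : E m × E m} (hz0 : z0 ∈ S)
    (hnc : ¬ Caustic S z0) : ∃ σ : E m → E m × E m, σ z0.1 = z0 ∧
      (∀ᶠ q in 𝓝 z0.1, ContDiffAt ℝ ∞ σ q) ∧
      (∀ᶠ q in 𝓝 z0.1, q ∈ N → σ q ∈ S ∧ (σ q).1 = q) ∧
      (∀ᶠ z in 𝓝 z0, z ∈ S → σ z.1 = z) := by
  have hq0 : z0.1 ∈ N := (hSN hz0).1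
  obtain ⟨e, A, hze, hs⟩ := hS.slice hz0
  obtain ⟨eN, B, hqe, hn⟩ := hN.slice hq0
  have ha0m : e z0 ∈ A := (hs.iff _ hze).1 hz0
  set a0 : A := ⟨e z0, ha0m⟩ with ha0
  let P : E m →L[ℝ] B := B.orthogonalProjectionOnto
  have hP : ∀ x : E m, x ∈ B → (P x : E m) = x := by
    intro x hx
    exact congrArg Subtype.val
      (Submodule.orthogonalProjectionOnto_mem_subspace_eq_self (K := B) ⟨x, hx⟩)
  let c : A → B := fun a => P (eN (e.symm (a : E m × E m)).1)
  have hsymm0 : e.symm (a0 : E m × E m) = z0 := e.left_inv hze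
  -- smoothness of c
  have hsub : Continuous (fun a : A => (a : E m × E m)) := continuous_subtype_val
  have hsubT : Tendsto (fun a : A => (a : E m × E m)) (𝓝 a0) (𝓝 (e z0)) :=
    hsub.continuousAt
  have htgt : ∀ᶠ a : A in 𝓝 a0, ((a : A) : E m × E m) ∈ e.target :=
    hsubT.eventually (e.open_target.mem_nhds (e.map_source hze))
  have hcs : ContinuousAt (fun a : A => (e.symm (a : E m × E m)).1) a0 := by
    have h1 : ContinuousAt e.symm ((a0 : A) : E m × E m) :=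
      e.continuousAt_symm (e.map_source hze)
    exact continuous_fst.continuousAt.comp (h1.comp hsub.continuousAt)
  have hsrcN : ∀ᶠ a : A in 𝓝 a0, (e.symm (a : E m × E m)).1 ∈ eN.source := by
    apply hcs.tendsto.eventually
    apply eN.open_source.mem_nhds
    rw [hsymm0]
    exact hqe
  have hsm : ∀ a : A, (a : E m × E m) ∈ e.target → (e.symm (a : E m × E m)).1 ∈ eN.source →
      ContDiffAt ℝ ∞ c a := by
    intro a h1 h2
    have h3 : ContDiffAt ℝ ∞ (fun a : A => (a : E m × E m)) a :=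
      A.subtypeL.contDiff.contDiffAt
    have h4 : ContDiffAt ℝ ∞ (fun a : A => e.symm (a : E m × E m)) a := (hs.cd' h1).comp a h3
    have h5 : ContDiffAt ℝ ∞ (fun a : A => (e.symm (a : E m × E m)).1) a := h4.fst
    have h6 : ContDiffAt ℝ ∞ (fun a : A => eN (e.symm (a : E m × E m)).1) a := (hn.cd h2).comp a h5
    exact P.contDiff.contDiffAt.comp a h6
  have hc : ∀ᶠ a in 𝓝 a0, ContDiffAt ℝ ∞ c a := by
    filter_upwards [htgt, hsrcN] with a h1 h2 using hsm a h1 h2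
  -- the derivative is injective
  have hder : HasFDerivAt c (P.comp ((fderiv ℝ eN z0.1).comp ((ContinuousLinearMap.fst ℝ (E m)
      (E m)).comp ((fderiv ℝ e.symm (e z0)).comp A.subtypeL)))) a0 := by
    have h1 : HasFDerivAt (fun a : A => (a : E m × E m)) A.subtypeL a0 := A.subtypeL.hasFDerivAt
    have h2 : HasFDerivAt e.symm (fderiv ℝ e.symm (e z0)) ((a0 : A) : E m × E m) :=
      hs.hd' (e.map_source hze)
    have h3 := h2.comp a0 h1
    have h4 := (ContinuousLinearMap.fst ℝ (E m) (E m)).hasFDerivAt.comp a0 h3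
    have h5 : HasFDerivAt eN (fderiv ℝ eN z0.1) ((e.symm ((a0 : A) : E m × E m)).1) := by
      rw [hsymm0]
      exact hn.hd hqe
    have h6 := h5.comp a0 h4
    exact P.hasFDerivAt.comp a0 h6
  have hinj : Function.Injective (fderiv ℝ c a0) := by
    rw [hder.fderiv]
    rw [injective_iff_map_eq_zero]
    intro v hv
    set w : E m × E m := fderiv ℝ e.symm (e z0) (v : E m × E m) with hw
    have hwT : w ∈ Tan S z0 := by
      rw [hs.mem_tan hze hz0, hw, hs.right hze]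
      exact v.2
    have hw1 : w.1 ∈ Tan N z0.1 := by
      have := Tan.map (T := N) hwT (ContinuousLinearMap.fst ℝ (E m) (E m)).hasFDerivAt
        (Eventually.of_forall fun y hy => (hSN hy).1)
      exact this
    rw [hn.mem_tan hqe hq0] at hw1
    have hv' : P (fderiv ℝ eN z0.1 w.1) = 0 := hv
    have h1 : fderiv ℝ eN z0.1 w.1 = 0 := by
      rw [← hP _ hw1, hv']
      rfl
    have h2 : w.1 = 0 := by
      rw [← hn.left hqe w.1, h1, map_zero]
    have h3 : w.2 = 0 := by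
      by_contra hne
      apply hnc
      refine ⟨w.2, hne, ?_⟩
      have : (0, w.2) = w := by rw [← h2]
      rw [this]
      exact hwT
    have h4 : w = 0 := Prod.ext h2 h3
    have h5 : (v : E m × E m) = 0 := by
      rw [← hs.right hze (v : E m × E m), ← hw, h4, map_zero]
    exact Subtype.ext h5
  obtain ⟨Φ, hΦc, hΦs, hΦd⟩ := smooth_inverse (hs.fr.trans hn.fr.symm) hc hinj
  have hca0 : c a0 = P (eN z0.1) := by
    change P (eN (e.symm ((a0 : A) : E m × E m)).1) = P (eN z0.1)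
    rw [hsymm0]
  have hΦ0 : Φ.symm (c a0) = a0 := by
    rw [← hΦc]
    exact Φ.left_inv hΦs
  have hcT : c a0 ∈ Φ.target := by
    rw [← hΦc]
    exact Φ.map_source hΦs
  let σ : E m → E m × E m := fun q => e.symm ((Φ.symm (P (eN q)) : A) : E m × E m)
  have hσ0 : σ z0.1 = z0 := by
    change e.symm ((Φ.symm (P (eN z0.1)) : A) : E m × E m) = z0
    rw [← hca0, hΦ0]
    exact hsymm0
  -- filters
  have hPe : Tendsto (fun q => P (eN q)) (𝓝 z0.1) (𝓝 (c a0)) := by
    rw [hca0]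
    exact P.continuous.continuousAt.tendsto.comp (eN.continuousAt hqe).tendsto
  have hΦsT : Tendsto Φ.symm (𝓝 (c a0)) (𝓝 a0) := by
    have := (Φ.continuousAt_symm hcT).tendsto
    rwa [hΦ0] at this
  have hPΦ : Tendsto (fun q => Φ.symm (P (eN q))) (𝓝 z0.1) (𝓝 a0) := hΦsT.comp hPe
  have ev1 : ∀ᶠ q in 𝓝 z0.1, q ∈ eN.source := eN.open_source.mem_nhds hqe
  have ev2 : ∀ᶠ q in 𝓝 z0.1, P (eN q) ∈ Φ.target :=
    hPe.eventually (Φ.open_target.mem_nhds hcT)
  have ev3 : ∀ᶠ q in 𝓝 z0.1, ((Φ.symm (P (eN q)) : A) : E m × E m) ∈ e.target :=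
    hPΦ.eventually htgt
  have ev4 : ∀ᶠ q in 𝓝 z0.1, ContDiffAt ℝ ∞ Φ.symm (P (eN q)) := hPe.eventually hΦd
  have ev5 : ∀ᶠ q in 𝓝 z0.1, (σ q).1 ∈ eN.source := hPΦ.eventually hsrcN
  refine ⟨σ, hσ0, ?_, ?_, ?_⟩
  · filter_upwards [ev1, ev2, ev3, ev4] with q h1 h2 h3 h4
    have k1 : ContDiffAt ℝ ∞ (fun q => P (eN q)) q := P.contDiff.contDiffAt.comp q (hn.cd h1)
    have k2 : ContDiffAt ℝ ∞ (fun q => Φ.symm (P (eN q))) q := h4.comp q k1
    have k3 : ContDiffAt ℝ ∞ (fun q => ((Φ.symm (P (eN q)) : A) : E m × E m)) q :=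
      A.subtypeL.contDiff.contDiffAt.comp q k2
    exact (hs.cd' h3).comp q k3
  · filter_upwards [ev1, ev2, ev3, ev5] with q h1 h2 h3 h5 hqN
    have hσS : σ q ∈ S := by
      rw [hs.iff _ (e.map_target h3), e.right_inv h3]
      exact (Φ.symm (P (eN q))).2
    refine ⟨hσS, ?_⟩
    have k1 : c (Φ.symm (P (eN q))) = P (eN q) := by
      rw [← hΦc]
      exact Φ.right_inv h2
    have k2 : P (eN (σ q).1) = P (eN q) := k1
    have k3 : eN (σ q).1 ∈ B := (hn.iff _ h5).1 (hSN hσS).1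
    have k4 : eN q ∈ B := (hn.iff _ h1).1 hqN
    have k5 : eN (σ q).1 = eN q := by
      rw [← hP _ k3, ← hP _ k4, k2]
    exact eN.injOn h5 h1 k5
  · obtain ⟨W0, hW0, hW0'⟩ := isOpen_induced_iff.1 Φ.open_source
    have hW : e z0 ∈ W0 := by
      have : a0 ∈ (Subtype.val ⁻¹' W0 : Set A) := by
        rw [hW0']
        exact hΦs
      exact this
    have ev6 : ∀ᶠ z in 𝓝 z0, e z ∈ W0 := (e.continuousAt hze).tendsto.eventually (hW0.mem_nhds hW)
    filter_upwards [e.open_source.mem_nhds hze, ev6] with z h1 h2 hzS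
    have h3 : e z ∈ A := (hs.iff _ h1).1 hzS
    have h4 : (⟨e z, h3⟩ : A) ∈ Φ.source := by
      rw [← hW0']
      exact h2
    have h5 : c ⟨e z, h3⟩ = P (eN z.1) := by
      change P (eN (e.symm (e z)).1) = P (eN z.1)
      rw [e.left_inv h1]
    have h6 : Φ.symm (P (eN z.1)) = ⟨e z, h3⟩ := by
      rw [← h5, ← hΦc]
      exact Φ.left_inv h4
    change e.symm ((Φ.symm (P (eN z.1)) : A) : E m × E m) = z
    rw [h6]
    exact e.left_inv h1

end Pool.Agent.H57.NL
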