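import Pool.Agent.H57.NL.MaxPair

/-!
A closed exact Lagrangian submanifold without caustic points meeting every fibre at most once is the
graph of a differential.
-/

set_option autoImplicit false

open scoped ContDiff Topology RealInnerProductSpace
open Filter

namespace Pool.Agent.H57.NL

variable {m n : ℕ} {N : Set (E m)} {Γ : AddSubgroup (E m)} {S : Set (E m × E m)}
  {f : E m × E m → ℝ}

/-- The image of a closed set with bounded second coordinates is closed. -/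
theorem ExactLag.isClosed_image (hL : ExactLag n N Γ S f) : IsClosed (Prod.fst '' S) := by
  rw [← isSeqClosed_iff_isClosed]
  intro u q hu hq
  choose z hz hzu using hu
  obtain ⟨R, hR⟩ := hL.bdd
  have hb : ∀ k, (z k).2 ∈ Metric.closedBall (0 : E m) R := fun k => by
    rw [mem_closedBall_zero_iff]
    exact hR _ (hz k)
  obtain ⟨p, -, φ, hφ, hp⟩ := (isCompact_closedBall (0 : E m) R).tendsto_subseq hb
  refine ⟨(q, p), ?_, rfl⟩
  have h1 : Tendsto (fun k => z (φ k)) atTop (𝓝 (q, p)) := by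
    have h2 : Tendsto (fun k => (z (φ k)).1) atTop (𝓝 q) := by
      have h3 := hq.comp hφ.tendsto_atTop
      refine h3.congr ?_
      intro k
      exact (hzu (φ k)).symm
    have h4 : Tendsto (fun k => (z (φ k)).2) atTop (𝓝 p) := hp
    exact h2.prodMk_nhds h4
  exact hL.closed.mem_of_tendsto h1 (Eventually.of_forall fun k => hz _)

theorem surjective_of_no_caustic (hM : ClosedMfd n N Γ) (hL : ExactLag n N Γ S f)
    (hno : ∀ z ∈ S, ¬ Caustic S z) : ∀ q ∈ N, ∃ z ∈ S, z.1 = q := by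
  have hcl := hL.isClosed_image
  have hsub : Prod.fst '' S ⊆ N := by
    rintro _ ⟨z, hz, rfl⟩
    exact (hL.subTN hz).1
  -- open neighbourhoods
  have hopen : ∀ z ∈ S, ∃ O : Set (E m), IsOpen O ∧ z.1 ∈ O ∧ ∀ q ∈ O, q ∈ N →
      q ∈ Prod.fst '' S := by
    intro z hz
    obtain ⟨σ, s0, s1, s2, -⟩ := local_section hM.sub hL.sub hL.subTN hz (hno z hz)
    obtain ⟨O, hO, hO1, hO2⟩ := eventually_nhds_iff.1 s2
    exact ⟨O, hO1, hO2, fun q hq hqN => ⟨σ q, (hO q hq hqN).1, (hO q hq hqN).2⟩⟩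
  choose! O hO1 hO2 hO3 using hopen
  have hpre := hM.conn.isPreconnected
  set U : Set (E m) := ⋃ z ∈ S, O z with hU
  have hUo : IsOpen U := isOpen_biUnion fun z hz => hO1 z hz
  have hVo : IsOpen (Prod.fst '' S)ᶜ := hcl.isOpen_compl
  have hcover : N ⊆ U ∪ (Prod.fst '' S)ᶜ := by
    intro q _
    by_cases h : q ∈ Prod.fst '' S
    · left
      obtain ⟨z, hz, rfl⟩ := h
      exact Set.mem_biUnion hz (hO2 z hz)
    · exact Or.inr h
  obtain ⟨z0, hz0⟩ := hL.ne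
  intro q hq
  by_contra hcon
  have hqV : q ∈ (Prod.fst '' S)ᶜ := by
    rintro ⟨z, hz, hzq⟩
    exact hcon ⟨z, hz, hzq⟩
  obtain ⟨r, hrN, hrU, hrV⟩ := hpre U (Prod.fst '' S)ᶜ hUo hVo hcover
    ⟨z0.1, (hL.subTN hz0).1, Set.mem_biUnion hz0 (hO2 z0 hz0)⟩ ⟨q, hq, hqV⟩
  obtain ⟨z, hz, hrz⟩ := Set.mem_iUnion₂.1 hrU
  exact hrV (hO3 z hz r hrz hrN)

theorem graph_of_injective (hM : ClosedMfd n N Γ) (hL : ExactLag n N Γ S f)
    (hinj : ∀ x ∈ S, ∀ y ∈ S, x.1 = y.1 → x = y) (hno : ∀ z ∈ S, ¬ Caustic S z) :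
    ∃ u s ψ ψ', IsGraph N Γ S u s ψ ψ' := by
  classical
  have hsurj := surjective_of_no_caustic hM hL hno
  choose! ζ hζS hζ1 using hsurj
  set s : E m → E m := fun q => (ζ q).2 with hs
  have hgr : ∀ q ∈ N, (q, s q) ∈ S := by
    intro q hq
    have : (q, s q) = ζ q := Prod.ext (hζ1 q hq).symm rfl
    rw [this]
    exact hζS q hq
  have huniq : ∀ z ∈ S, z.2 = s z.1 := by
    intro z hz
    have hzN := (hL.subTN hz).1
    have h1 := hinj z hz _ (hgr z.1 hzN) rfl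
    have h2 : z.2 = (z.1, s z.1).2 := congrArg Prod.snd h1
    exact h2
  have hsT : ∀ q ∈ N, s q ∈ Tan N q := fun q hq => (hL.subTN (hgr q hq)).2
  have hsec : ∀ q0 ∈ N, ∃ σ : E m → E m × E m, σ q0 = (q0, s q0) ∧
      (∀ᶠ q in 𝓝 q0, ContDiffAt ℝ ∞ σ q) ∧ (∀ᶠ q in 𝓝 q0, q ∈ N → σ q ∈ S ∧ (σ q).1 = q) ∧
      (∀ᶠ q in 𝓝 q0, q ∈ N → σ q = (q, s q)) := by
    intro q0 hq0
    obtain ⟨σ, s0, s1, s2, -⟩ := local_section hM.sub hL.sub hL.subTN (hgr q0 hq0)
      (hno _ (hgr q0 hq0))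
    refine ⟨σ, s0, s1, s2, ?_⟩
    filter_upwards [s2] with q hq hqN
    obtain ⟨h1, h2⟩ := hq hqN
    refine Prod.ext h2 ?_
    rw [huniq _ h1, h2]
  have hsinv : ∀ g ∈ Γ, ∀ q ∈ N, s (q + g) = s q := by
    intro g hg q hq
    exact (huniq _ (hL.inv g hg _ (hgr q hq))).symm
  -- the maps
  set ψ : E m × E m → E m × E m := fun z => (z.1, z.2 + s z.1) with hψ
  set ψ' : E m × E m → E m × E m := fun z => (z.1, z.2 - s z.1) with hψ'
  set u : E m → ℝ := fun q => f (q, s q) with hu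
  have hloc : ∀ z ∈ TN N, ∃ (σ : E m → E m × E m) (O : Set (E m)), σ z.1 = (z.1, s z.1) ∧
      IsOpen O ∧ z.1 ∈ O ∧ (∀ q ∈ O, ContDiffAt ℝ ∞ σ q) ∧
      (∀ q ∈ O, q ∈ N → σ q ∈ S ∧ (σ q).1 = q) ∧ (∀ q ∈ O, q ∈ N → σ q = (q, s q)) := by
    intro z hz
    obtain ⟨σ, s0, s1, s2, s3⟩ := hsec z.1 hz.1
    obtain ⟨O, hO, hO1, hO2⟩ := eventually_nhds_iff.1 (s1.and (s2.and s3))
    exact ⟨σ, O, s0, hO1, hO2, fun q hq => (hO q hq).1, fun q hq => (hO q hq).2.1,
      fun q hq => (hO q hq).2.2⟩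
  refine ⟨u, s, ψ, ψ', ⟨?_, ?_, hsT, ?_⟩, fun _ => rfl, ⟨?_, ?_, ?_, ?_, ?_, ?_, ?_, ?_⟩, ?_⟩
  · intro g hg q hq
    change f (q + g, s (q + g)) = f (q, s q)
    rw [hsinv g hg q hq]
    exact hL.finv g hg _ (hgr q hq)
  · -- derivative of u
    intro q0 hq0
    obtain ⟨σ, s0, s1, s2, s3⟩ := hsec q0 hq0
    have hf := hL.exact _ (hgr q0 hq0)
    rw [hasFDerivWithinAt_iff_isLittleO] at hf
    have hσd := (s1.self_of_nhds.differentiableAt (by simp)).hasFDerivAt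
    have hσc : Tendsto σ (𝓝[N] q0) (𝓝[S] (q0, s q0)) := by
      apply tendsto_nhdsWithin_of_tendsto_nhds_of_eventually_within
      · have := s1.self_of_nhds.continuousAt.tendsto
        rw [s0] at this
        exact this.mono_left nhdsWithin_le_nhds
      · have h1 := s2.filter_mono (nhdsWithin_le_nhds (s := N))
        filter_upwards [h1, self_mem_nhdsWithin] with q h2 h3 using (h2 h3).1
    have h1 := hf.comp_tendsto hσc
    have h2 : (fun q => σ q - σ q0) =O[𝓝[N] q0] (fun q => q - q0) :=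
      (hσd.isBigO_sub).mono nhdsWithin_le_nhds
    have h3 : (fun q => σ q - (q0, s q0)) =O[𝓝[N] q0] (fun q => q - q0) := by
      rw [← s0]
      exact h2
    have h4 := h1.trans_isBigO h3
    refine h4.congr' ?_ EventuallyEq.rfl
    have h5 := s3.filter_mono (nhdsWithin_le_nhds (s := N))
    filter_upwards [h5, self_mem_nhdsWithin] with q h6 h7
    have h8 := h6 h7
    change f (σ q) - f (q0, s q0) - liou (q0, s q0) (σ q - (q0, s q0)) = _
    rw [h8, liou_apply]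
    rfl
  · ext z
    constructor
    · intro hz
      exact ⟨(hL.subTN hz).1, huniq z hz⟩
    · rintro ⟨h1, h2⟩
      have : z = (z.1, s z.1) := Prod.ext rfl h2
      rw [this]
      exact hgr _ h1
  · intro z hz
    exact ⟨hz.1, hM.sub.tan_add hz.1 hz.2 (hsT _ hz.1)⟩
  · intro z hz
    exact ⟨hz.1, hM.sub.tan_sub hz.1 hz.2 (hsT _ hz.1)⟩
  · intro z _
    exact Prod.ext rfl (add_sub_cancel_right z.2 (s z.1))
  · intro z _
    exact Prod.ext rfl (sub_add_cancel z.2 (s z.1))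
  · intro z hz
    obtain ⟨σ, O, s0, hO, hzO, hO1, hO2, hO3⟩ := hloc z hz
    refine ⟨fun y => (y.1, y.2 + (σ y.1).2), Prod.fst ⁻¹' O, hO.preimage continuous_fst, hzO,
      ?_, ?_⟩
    · intro y hy
      have h1 : ContDiffAt ℝ ∞ (fun y : E m × E m => σ y.1) y :=
        (hO1 y.1 hy).comp y contDiffAt_fst
      exact (contDiffAt_fst.prodMk (contDiffAt_snd.add h1.snd)).contDiffWithinAt
    · rintro y ⟨hy1, hy2⟩
      change (y.1, y.2 + s y.1) = (y.1, y.2 + (σ y.1).2)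
      rw [hO3 y.1 hy1 hy2.1]
  · intro z hz
    obtain ⟨σ, O, s0, hO, hzO, hO1, hO2, hO3⟩ := hloc z hz
    refine ⟨fun y => (y.1, y.2 - (σ y.1).2), Prod.fst ⁻¹' O, hO.preimage continuous_fst, hzO,
      ?_, ?_⟩
    · intro y hy
      have h1 : ContDiffAt ℝ ∞ (fun y : E m × E m => σ y.1) y :=
        (hO1 y.1 hy).comp y contDiffAt_fst
      exact (contDiffAt_fst.prodMk (contDiffAt_snd.sub h1.snd)).contDiffWithinAt
    · rintro y ⟨hy1, hy2⟩
      change (y.1, y.2 - s y.1) = (y.1, y.2 - (σ y.1).2)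
      rw [hO3 y.1 hy1 hy2.1]
  · intro g hg z hz
    change (z.1 + g, z.2 + s (z.1 + g)) = (z.1 + g, z.2 + s z.1)
    rw [hsinv g hg z.1 hz.1]
  · intro z hz v hv w hw
    obtain ⟨σ, O, s0, hO, hzO, hO1, hO2, hO3⟩ := hloc z hz
    have e1 : ∀ᶠ q in 𝓝 z.1, ContDiffAt ℝ ∞ σ q := by
      filter_upwards [hO.mem_nhds hzO] with q hq using hO1 q hq
    have e2 : ∀ᶠ q in 𝓝 z.1, q ∈ N → σ q ∈ S ∧ (σ q).1 = q := by
      filter_upwards [hO.mem_nhds hzO] with q hq using hO2 q hq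
    set Dσ := fderiv ℝ σ z.1 with hDσ
    have hσd : HasFDerivAt σ Dσ z.1 :=
      ((hO1 z.1 hzO).differentiableAt (by simp)).hasFDerivAt
    let F1 := ContinuousLinearMap.fst ℝ (E m) (E m)
    let F2 := ContinuousLinearMap.snd ℝ (E m) (E m)
    let D : (E m × E m) →L[ℝ] (E m × E m) := F1.prod (F2 + F2.comp (Dσ.comp F1))
    have hDv : ∀ v, D v = (v.1, v.2 + (Dσ v.1).2) := fun v => rfl
    have hDd : HasFDerivWithinAt ψ D (TN N) z := by
      have hG : HasFDerivAt (fun y : E m × E m => (y.1, y.2 + (σ y.1).2)) D z := by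
        have h1 : HasFDerivAt (fun y : E m × E m => σ y.1) (Dσ.comp F1) z :=
          hσd.comp z F1.hasFDerivAt
        have h2 : HasFDerivAt (fun y : E m × E m => (σ y.1).2) (F2.comp (Dσ.comp F1)) z :=
          F2.hasFDerivAt.comp z h1
        exact F1.hasFDerivAt.prodMk (F2.hasFDerivAt.add h2)
      refine hG.hasFDerivWithinAt.congr_of_eventuallyEq ?_ ?_
      · have h3 : ∀ᶠ y in 𝓝[TN N] z, y.1 ∈ O := by
          apply Filter.Eventually.filter_mono nhdsWithin_le_nhds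
          exact (continuous_fst.tendsto z).eventually (hO.mem_nhds hzO)
        filter_upwards [h3, self_mem_nhdsWithin] with y hy1 hy2
        change (y.1, y.2 + s y.1) = (y.1, y.2 + (σ y.1).2)
        rw [hO3 y.1 hy1 hy2.1]
      · change (z.1, z.2 + s z.1) = (z.1, z.2 + (σ z.1).2)
        rw [s0]
    refine ⟨D v, D w, ?_, ?_, ?_⟩
    · intro γ hγ0 hγN hγd
      exact hasDerivAt_along hγN hγd (by rw [hγ0]; exact hDd)
    · intro γ hγ0 hγN hγd
      exact hasDerivAt_along hγN hγd (by rw [hγ0]; exact hDd)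
    · have hTN1 : ∀ v ∈ Tan (TN N) z, v.1 ∈ Tan N z.1 := by
        intro v hv
        exact Tan.map (T := N) hv F1.hasFDerivAt (Eventually.of_forall fun y hy => hy.1)
      have hzS : (z.1, s z.1) ∈ S := hgr _ hz.1
      have k1 := section_tan (N := N) (S := S) (z0 := (z.1, s z.1)) s0 e1 e2 (hTN1 v hv)
      have k2 := section_tan (N := N) (S := S) (z0 := (z.1, s z.1)) s0 e1 e2 (hTN1 w hw)
      have k3 := hL.lag _ hzS _ k1.1 _ k2.1
      have k1' : (Dσ v.1).1 = v.1 := k1.2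
      have k2' : (Dσ w.1).1 = w.1 := k2.2
      have k3' : ⟪(Dσ v.1).2, (Dσ w.1).1⟫ - ⟪(Dσ w.1).2, (Dσ v.1).1⟫ = (0 : ℝ) := k3
      rw [k1', k2'] at k3'
      rw [hDv, hDv]
      change ⟪v.2 + (Dσ v.1).2, w.1⟫ - ⟪w.2 + (Dσ w.1).2, v.1⟫ = ⟪v.2, w.1⟫ - ⟪w.2, v.1⟫
      rw [inner_add_left, inner_add_left]
      linarith
  · ext z
    constructor
    · rintro ⟨y, ⟨hy1, hy2⟩, rfl⟩
      change (y.1, y.2 + s y.1) ∈ S
      rw [hy2, zero_add]
      exact hgr _ hy1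
    · intro hz
      refine ⟨(z.1, 0), ⟨(hL.subTN hz).1, rfl⟩, ?_⟩
      change (z.1, 0 + s z.1) = z
      rw [zero_add]
      exact Prod.ext rfl (huniq z hz).symm

/-- The graph of a differential has no caustic points. -/
theorem no_caustic_of_graph (hM : ClosedMfd n N Γ) {u : E m → ℝ} {s : E m → E m}
    {ψ ψ' : E m × E m → E m × E m} (h : IsGraph N Γ S u s ψ ψ') {z : E m × E m} (hz : z ∈ S) :
    ¬ Caustic S z := by
  rintro ⟨b, hb, γ, hγ0, hγS, hγd⟩
  apply hb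
  have hS := h.graph.graph
  have hzN : z.1 ∈ N := by
    rw [hS] at hz
    exact hz.1
  have hz0 : ((z.1, (0 : E m)) : E m × E m) ∈ TN N := ⟨hzN, hM.sub.tan_zero hzN⟩
  obtain ⟨G, O, hO, hzO, hG, hGe⟩ := h.diffeo.smooth _ hz0
  have hGd : HasFDerivAt G (fderiv ℝ G (z.1, 0)) (z.1, 0) :=
    ((hG.contDiffAt (hO.mem_nhds hzO)).differentiableAt (by simp)).hasFDerivAt
  -- the curve of base points
  have h1 : HasDerivAt (fun t => (γ t).1) (0 : E m) 0 := by
    have := (ContinuousLinearMap.fst ℝ (E m) (E m)).hasFDerivAt.comp_hasDerivAt (0 : ℝ) hγd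
    exact this
  have h2 : HasDerivAt (fun t => (γ t).2) b 0 := by
    have := (ContinuousLinearMap.snd ℝ (E m) (E m)).hasFDerivAt.comp_hasDerivAt (0 : ℝ) hγd
    exact this
  have h3 : HasDerivAt (fun t => ((γ t).1, (0 : E m))) (0 : E m × E m) 0 := by
    have := h1.prodMk (hasDerivAt_const (0 : ℝ) (0 : E m))
    exact this
  have hγ00 : (fun t => ((γ t).1, (0 : E m))) 0 = (z.1, 0) := by
    change ((γ 0).1, (0 : E m)) = (z.1, 0)
    rw [hγ0]
  have h4 : HasDerivAt (fun t => (G ((γ t).1, (0 : E m))).2) (0 : E m) 0 := by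
    have h5 : HasDerivAt (G ∘ (fun t => ((γ t).1, (0 : E m))))
        (fderiv ℝ G (z.1, 0) (0 : E m × E m)) 0 := by
      have hGd' : HasFDerivAt G (fderiv ℝ G (z.1, 0)) ((fun t => ((γ t).1, (0 : E m))) 0) := by
        rw [hγ00]
        exact hGd
      exact hGd'.comp_hasDerivAt (0 : ℝ) h3
    rw [map_zero] at h5
    have := (ContinuousLinearMap.snd ℝ (E m) (E m)).hasFDerivAt.comp_hasDerivAt (0 : ℝ) h5
    exact this
  have h6 : (fun t => (γ t).2) =ᶠ[𝓝 0] (fun t => (G ((γ t).1, (0 : E m))).2) := by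
    have hcont : Tendsto (fun t => ((γ t).1, (0 : E m))) (𝓝 0) (𝓝 (z.1, 0)) := by
      rw [← hγ00]
      exact h3.continuousAt
    filter_upwards [hcont.eventually (hO.mem_nhds hzO), hγS] with t ht1 ht2
    have ht3 : (γ t).1 ∈ N ∧ (γ t).2 = s (γ t).1 := by
      rw [hS] at ht2
      exact ht2
    have ht4 := hGe _ ⟨ht1, ⟨ht3.1, hM.sub.tan_zero ht3.1⟩⟩
    rw [h.form] at ht4
    rw [← ht4, ht3.2]
    simp
  exact h2.unique (h4.congr_of_eventuallyEq h6)

end Pool.Agent.H57.NL
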