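import Mathlib

/-!
Closed exact Lagrangian submanifolds of cotangent bundles, in ambient Euclidean coordinates
(helper57, MP_3dbb84_gt).

A closed manifold `M` is presented as `N / Γ`, where `N` is a closed connected embedded
submanifold of `ℝ^m` and `Γ` is a group of translations preserving `N` with compact quotient.
-/

set_option autoImplicit false

open scoped ContDiff Topology RealInnerProductSpace

namespace Pool.Agent.H57.NL

/-- The Euclidean space `ℝ^m`. -/
abbrev E (m : ℕ) : Type := EuclideanSpace ℝ (Fin m)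

section General

variable {V V' : Type*} [NormedAddCommGroup V] [NormedSpace ℝ V] [NormedAddCommGroup V']
  [NormedSpace ℝ V']

/-- `S` is an embedded smooth submanifold of dimension `n` of `V` (without boundary): near each
point of `S` some local diffeomorphism of `V` takes `S` to an `n`-dimensional linear subspace. -/
def IsSubmfd (n : ℕ) (S : Set V) : Prop :=
  ∀ x ∈ S, ∃ (e : OpenPartialHomeomorph V V) (A : Submodule ℝ V), x ∈ e.source ∧
    ContDiffOn ℝ ∞ e e.source ∧ ContDiffOn ℝ ∞ e.symm e.target ∧ Module.finrank ℝ A = n ∧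
    ∀ y ∈ e.source, (y ∈ S ↔ e y ∈ A)

/-- Tangent vectors of `S` at `x`: velocities of curves in `S`. -/
def Tan (S : Set V) (x : V) : Set V :=
  {v | ∃ γ : ℝ → V, γ 0 = x ∧ (∀ᶠ s in 𝓝 (0 : ℝ), γ s ∈ S) ∧ HasDerivAt γ v 0}

/-- Smooth maps on a subset: locally restrictions of smooth maps on open sets. -/
def SmoothOn (S : Set V) (g : V → V') : Prop :=
  ∀ x ∈ S, ∃ (G : V → V') (O : Set V), IsOpen O ∧ x ∈ O ∧ ContDiffOn ℝ ∞ G O ∧
    ∀ y ∈ O ∩ S, g y = G y

end General

variable {m : ℕ}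

/-- The cotangent bundle of `N`, with covectors given by tangent vectors (scalar product). -/
def TN (N : Set (E m)) : Set (E m × E m) := {z | z.1 ∈ N ∧ z.2 ∈ Tan N z.1}

/-- The symplectic form `dp ∧ dq`. -/
noncomputable def om (v w : E m × E m) : ℝ := ⟪v.2, w.1⟫ - ⟪w.2, v.1⟫

/-- `f` is a primitive of the Liouville form `p dq` on `S`: its differential on `S` at `z = (q, p)`
is `v ↦ ⟨p, dq(v)⟩`. -/
def IsPrimitive (S : Set (E m × E m)) (f : E m × E m → ℝ) : Prop :=
  ∀ z ∈ S, (fun y => f y - f z - ⟪z.2, y.1 - z.1⟫) =o[𝓝[S] z] (fun y => y - z)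

/-- The differential of `u` on `N` at `q` is `⟨s(q), ·⟩`. -/
def IsDifferential (N : Set (E m)) (u : E m → ℝ) (s : E m → E m) : Prop :=
  ∀ q ∈ N, (fun y => u y - u q - ⟪s q, y - q⟫) =o[𝓝[N] q] (fun y => y - q)

/-- The symplectic form vanishes on the tangent spaces of `S`. -/
def Isotropic (S : Set (E m × E m)) : Prop :=
  ∀ z ∈ S, ∀ v ∈ Tan S z, ∀ w ∈ Tan S z, om v w = 0

/-- The square of the Euclidean norm on `ℝ^m × ℝ^m`. -/
noncomputable def nsq (v : E m × E m) : ℝ := ‖v.1‖ ^ 2 + ‖v.2‖ ^ 2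

/-- Translation by `g` in the base. -/
def tr (g : E m) (z : E m × E m) : E m × E m := (z.1 + g, z.2)

/-- `N / Γ` is a closed connected manifold of dimension `n`. -/
structure ClosedMfd (n : ℕ) (N : Set (E m)) (Γ : AddSubgroup (E m)) : Prop where
  sub : IsSubmfd n N
  closed : IsClosed N
  conn : IsConnected N
  inv : ∀ g ∈ Γ, ∀ q ∈ N, q + g ∈ N
  cocpt : ∃ R : ℝ, ∀ q ∈ N, ∃ g ∈ Γ, ‖q + g‖ ≤ R

/-- `S / Γ` is a closed exact Lagrangian submanifold of the cotangent bundle of `N / Γ`, and `f` is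
a primitive of the Liouville form on it. -/
structure ExactLag (n : ℕ) (N : Set (E m)) (Γ : AddSubgroup (E m)) (S : Set (E m × E m))
    (f : E m × E m → ℝ) : Prop where
  ne : S.Nonempty
  sub : IsSubmfd n S
  closed : IsClosed S
  subTN : S ⊆ TN N
  inv : ∀ g ∈ Γ, ∀ z ∈ S, tr g z ∈ S
  bdd : ∃ R : ℝ, ∀ z ∈ S, ‖z.2‖ ≤ R
  lag : Isotropic S
  prim : IsPrimitive S f
  finv : ∀ g ∈ Γ, ∀ z ∈ S, f (tr g z) = f z

/-- The point `z` of `S` is a caustic point: `S` has a vertical tangent vector at `z`. -/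
def Caustic (S : Set (E m × E m)) (z : E m × E m) : Prop := ∃ b : E m, b ≠ 0 ∧ (0, b) ∈ Tan S z

/-- `f` has its maximum or its minimum over the points of `S` in the cotangent fibre of `z` at
`z`. -/
def FibreExtremal (S : Set (E m × E m)) (f : E m × E m → ℝ) (z : E m × E m) : Prop :=
  (∀ y ∈ S, y.1 = z.1 → f y ≤ f z) ∨ (∀ y ∈ S, y.1 = z.1 → f z ≤ f y)

/-- `S` is the graph of the section `s`, which is the differential (gradient) of the function `u`
on `N / Γ`. -/
structure GraphOf (N : Set (E m)) (Γ : AddSubgroup (E m)) (S : Set (E m × E m))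
    (u : E m → ℝ) (s : E m → E m) : Prop where
  uinv : ∀ g ∈ Γ, ∀ q ∈ N, u (q + g) = u q
  du : IsDifferential N u s
  sTan : ∀ q ∈ N, s q ∈ Tan N q
  graph : S = {z | z.1 ∈ N ∧ z.2 = s z.1}

/-- The differential of `ψ` on `T` at `z` maps the tangent vector `v` to `v'`: for every curve in
`T` with velocity `v` at `z`, the image curve has velocity `v'`. -/
def Push (T : Set (E m × E m)) (ψ : E m × E m → E m × E m) (z v v' : E m × E m) : Prop :=
  ∀ γ : ℝ → E m × E m, γ 0 = z → (∀ᶠ s in 𝓝 (0 : ℝ), γ s ∈ T) → HasDerivAt γ v 0 →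
    HasDerivAt (ψ ∘ γ) v' 0

/-- `ψ` preserves the symplectic form of the cotangent bundle. -/
def PresOm (N : Set (E m)) (ψ : E m × E m → E m × E m) : Prop :=
  ∀ z ∈ TN N, ∀ v ∈ Tan (TN N) z, ∀ w ∈ Tan (TN N) z, ∃ v' w' : E m × E m,
    Push (TN N) ψ z v v' ∧ Push (TN N) ψ z w w' ∧ om v' w' = om v w

/-- `ψ` induces a symplectic diffeomorphism of the cotangent bundle of `N / Γ`, with inverse
`ψ'`. -/
structure SympDiffeo (N : Set (E m)) (Γ : AddSubgroup (E m))
    (ψ ψ' : E m × E m → E m × E m) : Prop where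
  maps : ∀ z ∈ TN N, ψ z ∈ TN N
  maps' : ∀ z ∈ TN N, ψ' z ∈ TN N
  left : ∀ z ∈ TN N, ψ' (ψ z) = z
  right : ∀ z ∈ TN N, ψ (ψ' z) = z
  smooth : SmoothOn (TN N) ψ
  smooth' : SmoothOn (TN N) ψ'
  equiv : ∀ g ∈ Γ, ∀ z ∈ TN N, ψ (tr g z) = tr g (ψ z)
  symp : PresOm N ψ

/-- `S` is the graph of the differential of a function `u` on `N / Γ`, and the translation
`ψ(q, p) = (q, p + du(q))` is a symplectic diffeomorphism of the cotangent bundle of `N / Γ`
mapping the zero section onto `S`. -/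
structure IsGraph (N : Set (E m)) (Γ : AddSubgroup (E m)) (S : Set (E m × E m))
    (u : E m → ℝ) (s : E m → E m) (ψ ψ' : E m × E m → E m × E m) : Prop where
  graph : GraphOf N Γ S u s
  form : ∀ z, ψ z = (z.1, z.2 + s z.1)
  diffeo : SympDiffeo N Γ ψ ψ'
  image : ψ '' {z | z.1 ∈ N ∧ z.2 = 0} = S

/-- The curvature of `S` in the Euclidean space `ℝ^m × ℝ^m` is at most `κ`: for every unit tangent
vector `v` some curve in `S` with velocity `v` has acceleration of norm at most `κ` at this point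
(equivalently: the second fundamental form satisfies `|II(v, v)| ≤ κ`, since `II(v, v)` is the
acceleration of the geodesic and the normal part of the acceleration of every such curve). -/
def CurvLE (κ : ℝ) (S : Set (E m × E m)) : Prop :=
  ∀ z ∈ S, ∀ v ∈ Tan S z, nsq v = 1 → ∃ (γ γ' : ℝ → E m × E m) (a : E m × E m),
    γ 0 = z ∧ γ' 0 = v ∧ (∀ᶠ s in 𝓝 (0 : ℝ), γ s ∈ S ∧ HasDerivAt γ (γ' s) s) ∧
    HasDerivAt γ' a 0 ∧ nsq a ≤ κ ^ 2

end Pool.Agent.H57.NL
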