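import Pool.Agent.H57.NL.MaxPair

/-!
A vertical tangent vector forces a large oscillation of the momentum (curvature pinching).
-/

set_option autoImplicit false

open scoped ContDiff Topology RealInnerProductSpace
open Filter

namespace Pool.Agent.H57.NL

variable {m n : ℕ}

theorem eventually_gt_of_deriv_pos {g : ℝ → ℝ} {d : ℝ} (hg : HasDerivAt g d 0) (hd : 0 < d) :
    ∀ᶠ s in 𝓝[>] (0 : ℝ), g 0 < g s := by
  have h1 := hg.tendsto_slope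
  have h2 : ∀ᶠ s in 𝓝[≠] (0 : ℝ), 0 < slope g 0 s := h1.eventually (lt_mem_nhds hd)
  have h3 : ∀ᶠ s in 𝓝[>] (0 : ℝ), 0 < slope g 0 s :=
    h2.filter_mono (nhdsWithin_mono _ (fun s hs => ne_of_gt hs))
  filter_upwards [h3, self_mem_nhdsWithin] with s h4 h5
  have h6 : (0 : ℝ) < s := h5
  rw [slope_def_field, sub_zero] at h4
  have := (div_pos_iff_of_pos_right h6).1 h4
  linarith

theorem nsq_smul (c : ℝ) (v : E m × E m) : nsq (c • v) = c ^ 2 * nsq v := by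
  unfold nsq
  rw [Prod.smul_fst, Prod.smul_snd, norm_smul, norm_smul, mul_pow, mul_pow, Real.norm_eq_abs,
    sq_abs]
  ring

theorem cauchy (x a : E m × E m) :
    (⟪x.1, a.1⟫ + ⟪x.2, a.2⟫) ^ 2 ≤ nsq x * nsq a := by
  have h1 := abs_real_inner_le_norm x.1 a.1
  have h2 := abs_real_inner_le_norm x.2 a.2
  have h3 : |⟪x.1, a.1⟫ + ⟪x.2, a.2⟫| ≤ ‖x.1‖ * ‖a.1‖ + ‖x.2‖ * ‖a.2‖ :=
    (abs_add_le _ _).trans (add_le_add h1 h2)
  have h4 : (⟪x.1, a.1⟫ + ⟪x.2, a.2⟫) ^ 2 ≤ (‖x.1‖ * ‖a.1‖ + ‖x.2‖ * ‖a.2‖) ^ 2 := by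
    rw [← sq_abs]
    exact pow_le_pow_left₀ (abs_nonneg _) h3 2
  refine h4.trans ?_
  unfold nsq
  nlinarith [sq_nonneg (‖x.1‖ * ‖a.2‖ - ‖x.2‖ * ‖a.1‖)]

theorem norm_le_of_nsq {v : E m × E m} (h : nsq v = 1) : ‖v‖ ≤ 1 := by
  unfold nsq at h
  rw [Prod.norm_def]
  apply max_le
  · nlinarith [sq_nonneg ‖v.2‖, norm_nonneg v.1]
  · nlinarith [sq_nonneg ‖v.1‖, norm_nonneg v.2]

theorem continuous_nsq : Continuous (nsq : E m × E m → ℝ) := by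
  unfold nsq
  fun_prop

theorem tan_tr {S : Set (E m × E m)} {g : E m} (hS : ∀ z ∈ S, tr g z ∈ S) {z v : E m × E m}
    (hv : v ∈ Tan S z) : v ∈ Tan S (tr g z) := by
  have h1 : HasFDerivAt (tr g) (ContinuousLinearMap.id ℝ (E m × E m)) z := by
    have h2 : (tr g) = fun z : E m × E m => z + (g, (0 : E m)) := by
      funext z
      refine Prod.ext rfl ?_
      change z.2 = z.2 + 0
      rw [add_zero]
    rw [h2]
    exact (hasFDerivAt_id z).add_const (g, (0 : E m))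
  exact Tan.map (T := S) hv h1 (Eventually.of_forall fun y hy => hS y hy)

/-- The oscillation lemma, approximate form. -/
theorem osc_eps {S : Set (E m × E m)} {Γ : AddSubgroup (E m)} (hS : IsSubmfd n S)
    (hc : IsClosed S) (hinv : ∀ g ∈ Γ, ∀ z ∈ S, tr g z ∈ S) {R : ℝ}
    (hR : IsCompact {z | z ∈ S ∧ ‖z.1‖ ≤ R}) (hco : ∀ z ∈ S, ∃ g ∈ Γ, ‖z.1 + g‖ ≤ R)
    {κ : ℝ} (hκ : 0 < κ) (hcurv : CurvLE κ S) {z0 : E m × E m} (hz0 : z0 ∈ S) {b : E m}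
    (hb : ‖b‖ = 1) (hv : (0, b) ∈ Tan S z0) {κ' δ : ℝ} (hκ' : κ < κ') (hδ : 0 < δ) :
    ∃ z ∈ S, ⟪b, z0.2⟫ + 1 / κ' - δ ≤ ⟪b, z.2⟫ := by
  have hκ0 : 0 < κ' := hκ.trans hκ'
  set c : ℝ := ⟪b, z0.2⟫ with hc0
  let Z : Set ((E m × E m) × (E m × E m)) := {q | q.1 ∈ S ∧ q.2 ∈ Tan S q.1 ∧ nsq q.2 = 1 ∧
    0 ≤ ⟪b, q.2.2⟫ ∧ c ≤ ⟪b, q.1.2⟫ ∧ 1 ≤ ⟪b, q.2.2⟫ ^ 2 + κ' ^ 2 * (⟪b, q.1.2⟫ - c + δ) ^ 2}
  have hbb : ⟪b, b⟫ = (1 : ℝ) := by rw [real_inner_self_eq_norm_sq, hb, one_pow]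
  have hZtr : ∀ g ∈ Γ, ∀ q ∈ Z, (tr g q.1, q.2) ∈ Z := by
    rintro g hg q ⟨h1, h2, h3, h4, h5, h6⟩
    exact ⟨hinv g hg _ h1, tan_tr (fun z hz => hinv g hg z hz) h2, h3, h4, h5, h6⟩
  have hcl : IsClosed Z := by
    have h1 := hS.isClosed_tan hc
    have h2 : IsClosed {q : (E m × E m) × (E m × E m) | nsq q.2 = 1} :=
      isClosed_eq (continuous_nsq.comp continuous_snd) continuous_const
    have h3 : IsClosed {q : (E m × E m) × (E m × E m) | (0 : ℝ) ≤ ⟪b, q.2.2⟫} :=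
      isClosed_le continuous_const (by fun_prop)
    have h4 : IsClosed {q : (E m × E m) × (E m × E m) | c ≤ ⟪b, q.1.2⟫} :=
      isClosed_le continuous_const (by fun_prop)
    have h5 : IsClosed {q : (E m × E m) × (E m × E m) |
        1 ≤ ⟪b, q.2.2⟫ ^ 2 + κ' ^ 2 * (⟪b, q.1.2⟫ - c + δ) ^ 2} :=
      isClosed_le continuous_const (by fun_prop)
    have h6 := (((h1.inter h2).inter h3).inter h4).inter h5
    convert h6 using 1
    ext q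
    constructor
    · rintro ⟨k1, k2, k3, k4, k5, k6⟩
      exact ⟨⟨⟨⟨⟨k1, k2⟩, k3⟩, k4⟩, k5⟩, k6⟩
    · rintro ⟨⟨⟨⟨⟨k1, k2⟩, k3⟩, k4⟩, k5⟩, k6⟩
      exact ⟨k1, k2, k3, k4, k5, k6⟩
  set ZR := Z ∩ ({z | z ∈ S ∧ ‖z.1‖ ≤ R} ×ˢ Metric.closedBall (0 : E m × E m) 1) with hZR
  have hZRc : IsCompact ZR := (hR.prod (isCompact_closedBall _ _)).inter_left hcl
  have hZball : ∀ q ∈ Z, q.2 ∈ Metric.closedBall (0 : E m × E m) 1 := by
    intro q hq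
    rw [mem_closedBall_zero_iff]
    exact norm_le_of_nsq hq.2.2.1
  have hmove : ∀ q ∈ Z, ∃ q' ∈ ZR, ⟪b, q'.1.2⟫ = ⟪b, q.1.2⟫ := by
    intro q hq
    obtain ⟨g, hg, hgR⟩ := hco q.1 hq.1
    have h1 := hZtr g hg q hq
    exact ⟨(tr g q.1, q.2), ⟨h1, ⟨⟨h1.1, hgR⟩, hZball _ h1⟩⟩, rfl⟩
  have hstart : (z0, ((0 : E m), b)) ∈ Z := by
    refine ⟨hz0, hv, ?_, ?_, le_rfl, ?_⟩
    · unfold nsq
      simp [hb]
    · rw [hbb]
      exact zero_le_one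
    · rw [hbb]
      have : 0 ≤ κ' ^ 2 * (⟪b, z0.2⟫ - c + δ) ^ 2 := by positivity
      linarith
  have hne : ZR.Nonempty := by
    obtain ⟨q', hq', -⟩ := hmove _ hstart
    exact ⟨q', hq'⟩
  obtain ⟨⟨y, v⟩, hyv, hmax⟩ := hZRc.exists_isMaxOn hne
    (f := fun q : (E m × E m) × (E m × E m) => ⟪b, q.1.2⟫) (by fun_prop)
  have hmax' : ∀ q ∈ Z, ⟪b, q.1.2⟫ ≤ ⟪b, y.2⟫ := by
    intro q hq
    obtain ⟨q', hq', he⟩ := hmove q hq
    rw [← he]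
    exact hmax hq'
  obtain ⟨⟨hyS, hvT, hv1, hv0, hyc, hQ⟩, -⟩ := hyv
  refine ⟨y, hyS, ?_⟩
  simp only at hv0 hyc hQ hvT hv1 hyS
  set G0 : ℝ := ⟪b, v.2⟫ with hG0
  set H0 : ℝ := ⟪b, y.2⟫ - c + δ with hH0
  have hH0pos : 0 < H0 := by linarith
  -- it is enough to prove that `G0 = 0`
  rcases eq_or_lt_of_le hv0 with hG | hG
  · rw [← hG] at hQ
    have h1 : 1 ≤ κ' * H0 := by
      by_contra hcon
      push Not at hcon
      have : (κ' * H0) ^ 2 < 1 := by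
        have h0 : 0 ≤ κ' * H0 := by positivity
        nlinarith
      have h2 : κ' ^ 2 * H0 ^ 2 = (κ' * H0) ^ 2 := by ring
      rw [h2] at hQ
      linarith
    have h2 : 1 / κ' ≤ H0 := by
      rw [div_le_iff₀ hκ0]
      linarith
    linarith
  · exfalso
    obtain ⟨γ, γ', a, hγ0, hγ'0, hγS, hγd, ha⟩ := hcurv y hyS v hvT hv1
    have hγd0 : HasDerivAt γ v 0 := by
      have := hγS.self_of_nhds.2
      rwa [hγ'0] at this
    have hTan := tan_of_curve hγS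
    -- derivatives
    have dG : HasDerivAt (fun s => (⟪b, (γ' s).2⟫ : ℝ)) ⟪b, a.2⟫ 0 := by
      have h1 : HasDerivAt (fun s => (γ' s).2) a.2 0 :=
        (ContinuousLinearMap.snd ℝ (E m) (E m)).hasFDerivAt.comp_hasDerivAt (0 : ℝ) hγd
      exact (innerSL ℝ b).hasFDerivAt.comp_hasDerivAt (0 : ℝ) h1
    have dH : HasDerivAt (fun s => (⟪b, (γ s).2⟫ - c + δ : ℝ)) G0 0 := by
      have h1 : HasDerivAt (fun s => (γ s).2) v.2 0 :=
        (ContinuousLinearMap.snd ℝ (E m) (E m)).hasFDerivAt.comp_hasDerivAt (0 : ℝ) hγd0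
      have h2 : HasDerivAt (fun s => (⟪b, (γ s).2⟫ : ℝ)) ⟪b, v.2⟫ 0 :=
        (innerSL ℝ b).hasFDerivAt.comp_hasDerivAt (0 : ℝ) h1
      exact (h2.sub_const c).add_const δ
    have dn : HasDerivAt (fun s => nsq (γ' s)) (2 * ⟪v.1, a.1⟫ + 2 * ⟪v.2, a.2⟫) 0 := by
      have h1 : HasDerivAt (fun s => (γ' s).1) a.1 0 :=
        (ContinuousLinearMap.fst ℝ (E m) (E m)).hasFDerivAt.comp_hasDerivAt (0 : ℝ) hγd
      have h2 : HasDerivAt (fun s => (γ' s).2) a.2 0 :=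
        (ContinuousLinearMap.snd ℝ (E m) (E m)).hasFDerivAt.comp_hasDerivAt (0 : ℝ) hγd
      have h3 := h1.norm_sq.add h2.norm_sq
      rw [hγ'0] at h3
      exact h3
    set P : ℝ → ℝ := fun s => (⟪b, (γ' s).2⟫ : ℝ) ^ 2 -
      nsq (γ' s) * (1 - κ' ^ 2 * (⟪b, (γ s).2⟫ - c + δ) ^ 2) with hP
    have hn0 : nsq (γ' 0) = 1 := by rw [hγ'0, hv1]
    have hP0 : P 0 = G0 ^ 2 - (1 - κ' ^ 2 * H0 ^ 2) := by
      rw [hP]
      simp only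
      rw [hγ0, hγ'0, hv1, one_mul]
    have dP : HasDerivAt P (2 * G0 * ⟪b, a.2⟫ - ((2 * ⟪v.1, a.1⟫ + 2 * ⟪v.2, a.2⟫) *
        (1 - κ' ^ 2 * H0 ^ 2) + 1 * (-(κ' ^ 2 * (2 * H0 * G0))))) 0 := by
      have h1 := dG.pow 2
      have h2 := ((dH.pow 2).const_mul (κ' ^ 2)).const_sub 1
      have h3 := h1.sub (dn.mul h2)
      rw [hP]
      refine h3.congr_deriv ?_
      simp only [Pi.pow_apply, hγ0, hγ'0, hv1]
      rw [← hG0, ← hH0]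
      push_cast
      ring
    -- positivity of P for small positive times
    have hPnn : ∀ᶠ s in 𝓝[>] (0 : ℝ), 0 ≤ P s := by
      have hP0' : 0 ≤ P 0 := by
        rw [hP0]
        linarith
      rcases eq_or_lt_of_le hP0' with h0 | h0
      · have hGH : G0 ^ 2 = 1 - κ' ^ 2 * H0 ^ 2 := by
          rw [hP0] at h0
          linarith
        -- Cauchy-Schwarz
        have hC := cauchy ((-(G0 • v.1), b - G0 • v.2) : E m × E m) a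
        have hX : nsq ((-(G0 • v.1), b - G0 • v.2) : E m × E m) = κ' ^ 2 * H0 ^ 2 := by
          unfold nsq at hv1 ⊢
          simp only
          rw [norm_neg, norm_smul, @norm_sub_sq_real, hb, norm_smul, real_inner_smul_right, ← hG0,
            mul_pow, mul_pow, Real.norm_eq_abs, sq_abs]
          nlinarith
        have hin : ⟪((-(G0 • v.1), b - G0 • v.2) : E m × E m).1, a.1⟫ +
            ⟪((-(G0 • v.1), b - G0 • v.2) : E m × E m).2, a.2⟫ =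
            ⟪b, a.2⟫ - G0 * (⟪v.1, a.1⟫ + ⟪v.2, a.2⟫) := by
          simp only
          rw [inner_neg_left, inner_sub_left, real_inner_smul_left, real_inner_smul_left]
          ring
        rw [hX, hin] at hC
        obtain ⟨I, hI⟩ : ∃ I : ℝ, I = ⟪b, a.2⟫ - G0 * (⟪v.1, a.1⟫ + ⟪v.2, a.2⟫) := ⟨_, rfl⟩
        rw [← hI] at hC
        have hI2 : I ^ 2 ≤ (κ' * H0 * κ) ^ 2 := by
          refine hC.trans ?_
          have h1 : κ' ^ 2 * H0 ^ 2 * nsq a ≤ κ' ^ 2 * H0 ^ 2 * κ ^ 2 :=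
            mul_le_mul_of_nonneg_left ha (by positivity)
          calc κ' ^ 2 * H0 ^ 2 * nsq a ≤ κ' ^ 2 * H0 ^ 2 * κ ^ 2 := h1
            _ = (κ' * H0 * κ) ^ 2 := by ring
        have hI3 : -(κ' * H0 * κ) ≤ I := (abs_le_of_sq_le_sq' hI2 (by positivity)).1
        have hd : 0 < 2 * G0 * ⟪b, a.2⟫ - ((2 * ⟪v.1, a.1⟫ + 2 * ⟪v.2, a.2⟫) *
            (1 - κ' ^ 2 * H0 ^ 2) + 1 * (-(κ' ^ 2 * (2 * H0 * G0)))) := by
          have h1 : 2 * G0 * ⟪b, a.2⟫ - ((2 * ⟪v.1, a.1⟫ + 2 * ⟪v.2, a.2⟫) *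
            (1 - κ' ^ 2 * H0 ^ 2) + 1 * (-(κ' ^ 2 * (2 * H0 * G0)))) =
              2 * G0 * (I + κ' ^ 2 * H0) := by
            rw [← hGH, hI]
            ring
          rw [h1]
          have h2 : 0 < I + κ' ^ 2 * H0 := by
            have h3 : 0 < κ' * H0 * (κ' - κ) := mul_pos (mul_pos hκ0 hH0pos) (sub_pos.2 hκ')
            have h4 : κ' * H0 * (κ' - κ) = κ' ^ 2 * H0 - κ' * H0 * κ := by ring
            linarith
          exact mul_pos (mul_pos two_pos hG) h2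
        filter_upwards [eventually_gt_of_deriv_pos dP hd] with s hs
        rw [← h0] at hs
        exact hs.le
      · have : ∀ᶠ s in 𝓝 (0 : ℝ), 0 < P s := dP.continuousAt.eventually (lt_mem_nhds h0)
        filter_upwards [this.filter_mono nhdsWithin_le_nhds] with s hs using hs.le
    have hHgt : ∀ᶠ s in 𝓝[>] (0 : ℝ), H0 < ⟪b, (γ s).2⟫ - c + δ := by
      have := eventually_gt_of_deriv_pos dH hG
      rw [hγ0] at this
      exact this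
    have hGgt : ∀ᶠ s in 𝓝[>] (0 : ℝ), 0 < (⟪b, (γ' s).2⟫ : ℝ) := by
      have h1 : ∀ᶠ s in 𝓝 (0 : ℝ), 0 < (⟪b, (γ' s).2⟫ : ℝ) := by
        apply dG.continuousAt.eventually
        change ∀ᶠ x in 𝓝 (⟪b, (γ' 0).2⟫ : ℝ), 0 < x
        rw [hγ'0]
        exact lt_mem_nhds hG
      exact h1.filter_mono nhdsWithin_le_nhds
    have hngt : ∀ᶠ s in 𝓝[>] (0 : ℝ), 0 < nsq (γ' s) := by
      have h1 : ∀ᶠ s in 𝓝 (0 : ℝ), 0 < nsq (γ' s) := by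
        apply dn.continuousAt.eventually
        change ∀ᶠ x in 𝓝 (nsq (γ' 0)), 0 < x
        rw [hn0]
        exact lt_mem_nhds one_pos
      exact h1.filter_mono nhdsWithin_le_nhds
    obtain ⟨s, hs1, hs2, hs3, hs4, hs5, hs6⟩ := (hPnn.and (hHgt.and (hGgt.and (hngt.and
      ((hγS.filter_mono nhdsWithin_le_nhds).and
        (hTan.filter_mono nhdsWithin_le_nhds)))))).exists
    set r : ℝ := (Real.sqrt (nsq (γ' s)))⁻¹ with hr
    have hrpos : 0 < r := by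
      rw [hr]
      exact inv_pos.2 (Real.sqrt_pos.2 hs4)
    have hr2 : r ^ 2 * nsq (γ' s) = 1 := by
      rw [hr, inv_pow, Real.sq_sqrt hs4.le, inv_mul_cancel₀ hs4.ne']
    have hmem : (γ s, r • γ' s) ∈ Z := by
      refine ⟨hs5.1, Tan.smul hs6 r, ?_, ?_, ?_, ?_⟩
      · rw [nsq_smul, hr2]
      · change 0 ≤ ⟪b, r • (γ' s).2⟫
        rw [real_inner_smul_right]
        positivity
      · change c ≤ ⟪b, (γ s).2⟫
        linarith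
      · change 1 ≤ ⟪b, r • (γ' s).2⟫ ^ 2 + κ' ^ 2 * (⟪b, (γ s).2⟫ - c + δ) ^ 2
        rw [real_inner_smul_right, mul_pow]
        have h1 : 0 ≤ (⟪b, (γ' s).2⟫ : ℝ) ^ 2 -
          nsq (γ' s) * (1 - κ' ^ 2 * (⟪b, (γ s).2⟫ - c + δ) ^ 2) := hs1
        have h2 : 0 ≤ r ^ 2 * ((⟪b, (γ' s).2⟫ : ℝ) ^ 2 -
          nsq (γ' s) * (1 - κ' ^ 2 * (⟪b, (γ s).2⟫ - c + δ) ^ 2)) :=
          mul_nonneg (sq_nonneg r) h1
        have h3 : r ^ 2 * ((⟪b, (γ' s).2⟫ : ℝ) ^ 2 -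
          nsq (γ' s) * (1 - κ' ^ 2 * (⟪b, (γ s).2⟫ - c + δ) ^ 2)) =
          r ^ 2 * (⟪b, (γ' s).2⟫ : ℝ) ^ 2 - (r ^ 2 * nsq (γ' s)) *
            (1 - κ' ^ 2 * (⟪b, (γ s).2⟫ - c + δ) ^ 2) := by ring
        rw [h3, hr2] at h2
        linarith
    have := hmax' _ hmem
    simp only at this
    linarith

/-- The oscillation lemma. -/
theorem osc_up {S : Set (E m × E m)} {Γ : AddSubgroup (E m)} (hS : IsSubmfd n S)
    (hc : IsClosed S) (hinv : ∀ g ∈ Γ, ∀ z ∈ S, tr g z ∈ S) {R : ℝ}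
    (hR : IsCompact {z | z ∈ S ∧ ‖z.1‖ ≤ R}) (hco : ∀ z ∈ S, ∃ g ∈ Γ, ‖z.1 + g‖ ≤ R)
    {κ : ℝ} (hκ : 0 < κ) (hcurv : CurvLE κ S) {z0 : E m × E m} (hz0 : z0 ∈ S) {b : E m}
    (hb : ‖b‖ = 1) (hv : (0, b) ∈ Tan S z0) :
    ∃ z ∈ S, ⟪b, z0.2⟫ + 1 / κ ≤ ⟪b, z.2⟫ := by
  have hne : {z | z ∈ S ∧ ‖z.1‖ ≤ R}.Nonempty := by
    obtain ⟨g, hg, hgR⟩ := hco z0 hz0
    exact ⟨tr g z0, hinv g hg z0 hz0, hgR⟩
  obtain ⟨y, hy, hmax⟩ := hR.exists_isMaxOn hne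
    (f := fun z : E m × E m => (⟪b, z.2⟫ : ℝ)) (by fun_prop)
  refine ⟨y, hy.1, ?_⟩
  have hmax' : ∀ z ∈ S, (⟪b, z.2⟫ : ℝ) ≤ ⟪b, y.2⟫ := by
    intro z hz
    obtain ⟨g, hg, hgR⟩ := hco z hz
    have h1 : tr g z ∈ {z | z ∈ S ∧ ‖z.1‖ ≤ R} := ⟨hinv g hg z hz, hgR⟩
    have h2 := hmax h1
    exact h2
  by_contra hcon
  push Not at hcon
  set ε : ℝ := ⟪b, z0.2⟫ + 1 / κ - ⟪b, y.2⟫ with hε
  have hεpos : 0 < ε := by linarith
  -- choose κ' with 1 / κ' > 1 / κ - ε / 2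
  obtain ⟨κ', hκ', hκ''⟩ : ∃ κ' : ℝ, κ < κ' ∧ 1 / κ - ε / 2 < 1 / κ' := by
    have hcont : ContinuousAt (fun x : ℝ => 1 / x) κ := by
      have : ContinuousAt (fun x : ℝ => x⁻¹) κ := continuousAt_inv₀ hκ.ne'
      simpa [one_div] using this
    have h1 : ∀ᶠ x in 𝓝 κ, 1 / κ - ε / 2 < 1 / x := by
      apply hcont.eventually
      exact lt_mem_nhds (by linarith)
    have h2 := h1.filter_mono (nhdsWithin_le_nhds (s := Set.Ioi κ))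
    obtain ⟨x, hx1, hx2⟩ := (h2.and self_mem_nhdsWithin).exists
    exact ⟨x, hx2, hx1⟩
  obtain ⟨z, hz, hzb⟩ := osc_eps hS hc hinv hR hco hκ hcurv hz0 hb hv hκ' (half_pos hεpos)
  have := hmax' z hz
  linarith

variable {N : Set (E m)} {Γ : AddSubgroup (E m)} {S : Set (E m × E m)} {f : E m × E m → ℝ}

/-- Small oscillation of the momentum compared with the curvature excludes caustic points. -/
theorem no_caustic_of_pinched (hM : ClosedMfd n N Γ) (hL : ExactLag n N Γ S f) {κ : ℝ}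
    (hκ : 0 < κ) (hcurv : CurvLE κ S) (hosc : ∀ z ∈ S, ∀ z' ∈ S, ‖z.2 - z'.2‖ < 2 / κ) :
    ∀ z ∈ S, ¬ Caustic S z := by
  rintro z hz ⟨b', hb', hT⟩
  obtain ⟨R, hR⟩ := hM.cocpt
  have hRc := hL.compact_part R
  have hco : ∀ z ∈ S, ∃ g ∈ Γ, ‖z.1 + g‖ ≤ R := fun z hz => hR z.1 (hL.subTN hz).1
  have hb0 : ‖b'‖ ≠ 0 := norm_ne_zero_iff.2 hb'
  set b : E m := ‖b'‖⁻¹ • b' with hb
  have hb1 : ‖b‖ = 1 := by
    rw [hb, norm_smul, norm_inv, norm_norm, inv_mul_cancel₀ hb0]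
  have hT1 : (0, b) ∈ Tan S z := by
    have := Tan.smul hT ‖b'‖⁻¹
    rwa [Prod.smul_mk, smul_zero] at this
  have hT2 : (0, -b) ∈ Tan S z := by
    have := Tan.smul hT1 (-1)
    rwa [Prod.smul_mk, smul_zero, neg_one_smul] at this
  obtain ⟨y1, hy1, h1⟩ := osc_up hL.sub hL.closed hL.inv hRc hco hκ hcurv hz hb1 hT1
  obtain ⟨y2, hy2, h2⟩ := osc_up hL.sub hL.closed hL.inv hRc hco hκ hcurv hz
    (by rw [norm_neg]; exact hb1) hT2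
  rw [inner_neg_left, inner_neg_left] at h2
  have h3 : 2 / κ ≤ ⟪b, y1.2 - y2.2⟫ := by
    rw [inner_sub_right]
    have : 2 / κ = 1 / κ + 1 / κ := by ring
    linarith
  have h4 : ⟪b, y1.2 - y2.2⟫ ≤ ‖y1.2 - y2.2‖ := by
    have := real_inner_le_norm b (y1.2 - y2.2)
    rwa [hb1, one_mul] at this
  have h5 := hosc y1 hy1 y2 hy2
  linarith

end Pool.Agent.H57.NL
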